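import Pool.Agent.Helper60.GM.Defs
import Pool.Agent.Helper92.LA.A3

/-!
# Project GM, block B: continuity, monotonicity, splitting into fibres, trivial bound

Method as in the blocks B and E3 of RT (helper85, helper33).
-/

open MeasureTheory Real Set Filter Topology

set_option autoImplicit false

namespace Pool.Agent.Helper60.GM

open Pool.Agent.Helper22.AE
open Pool.Agent.Helper92.GC (dt tp Tq uu tt arc dd sqa m6)
open Pool.Agent.Helper92.DT (m12 IsMul12)
open Pool.Agent.Helper60.LT (Fr Tf xf yf df vf fr ac co Cut BB PP)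
open Pool.Agent.Helper60.QL (nm Cone)
open Pool.Agent.Helper60.RT (R2 cn FR sp Pr prs ctr lf2 ln2)

theorem mf_cont {F : Fam} {B₀ : ℝ} (hF : F.Ok B₀) (S : Finset (ℤ × ℤ)) : Continuous fun z : ℝ × ℝ => mf F S z.2 z.1 := by
  unfold mf
  refine Pool.Agent.Helper92.LA.m12_cont_coef S (fun (z : ℝ × ℝ) k => ee (z.2 * ((k.1 : ℝ) * F.q z.1 (tt 0 k)))) fun k _ => ee_cont.comp ?_
  have h : Continuous fun z : ℝ × ℝ => F.q z.1 (tt 0 k) := hF.cont.comp (continuous_fst.prodMk continuous_const)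
  exact continuous_snd.mul (continuous_const.mul h)

private theorem pw58 {ι : Type} (P : Finset ι) (f : ι → ℝ) (hf : ∀ i ∈ P, 0 ≤ f i) :
    (∑ i ∈ P, f i) ^ 12 ≤ (P.card : ℝ) ^ 11 * ∑ i ∈ P, f i ^ 12 := by
  rcases P.eq_empty_or_nonempty with hP0 | hP0
  · rw [hP0]
    simp
  · have h := pow_sum_div_card_le_sum_pow (s := P) (f := f) hf 11
    have hcd : (0 : ℝ) < (P.card : ℝ) ^ 11 := by
      have : (0 : ℝ) < (P.card : ℝ) := by exact_mod_cast hP0.card_pos
      positivity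
    rw [div_le_iff₀ hcd, mul_comm] at h
    exact h

private theorem intb58 {f : ℝ × ℝ → ℝ} (hf : Continuous f) : Integrable f (volume.restrict Tq) := by
  have h1 : IsCompact Tq := isCompact_Icc.prod isCompact_Icc
  exact hf.continuousOn.integrableOn_compact h1

/-- splitting of the twelfth moment into the fibres of a map -/
private theorem m12_fib58 {ι : Type} [DecidableEq ι] (S : Finset (ℤ × ℤ)) (g : ℤ × ℤ → ι) (P : Finset ι) (hP : ∀ k ∈ S, g k ∈ P) (a : ℤ × ℤ → ℂ) :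
    m12 S a ≤ (P.card : ℝ) ^ 11 * ∑ i ∈ P, m12 (S.filter (fun k => g k = i)) a := by
  have hc : ∀ S : Finset (ℤ × ℤ), Continuous fun c => ‖tp S a c‖ ^ 12 := fun S => (Pool.Agent.Helper92.GC.tp_cont S a).norm.pow 12
  have h1 : ∀ c, ‖tp S a c‖ ^ 12 ≤ (P.card : ℝ) ^ 11 * ∑ i ∈ P, ‖tp (S.filter (fun k => g k = i)) a c‖ ^ 12 := by
    intro c
    have h2 : tp S a c = ∑ i ∈ P, tp (S.filter (fun k => g k = i)) a c := by
      unfold tp
      exact (Finset.sum_fiberwise_of_maps_to hP _).symm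
    have h3 : ‖tp S a c‖ ≤ ∑ i ∈ P, ‖tp (S.filter (fun k => g k = i)) a c‖ := by
      rw [h2]
      exact norm_sum_le _ _
    exact (pow_le_pow_left₀ (norm_nonneg _) h3 12).trans (pw58 P (fun i => ‖tp (S.filter (fun k => g k = i)) a c‖) (fun i _ => norm_nonneg _))
  unfold m12
  rw [← integral_finsetSum _ fun i _ => intb58 (hc _), ← integral_const_mul]
  exact integral_mono (intb58 (hc _)) (intb58 (continuous_const.mul (continuous_finsetSum _ fun i _ => hc _))) h1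

private theorem abs58 {ι : Type} (P : Finset ι) (F : ι → ℝ → ℝ → ENNReal) (hm : ∀ i, Measurable fun q : ℝ × ℝ => F i q.1 q.2) (G : ℝ → ℝ → ENNReal)
    (c : ENNReal) (h : ∀ s r, G s r ≤ c * ∑ i ∈ P, F i s r) (A B : Set ℝ) :
    ∫⁻ s in A, ∫⁻ r in B, G s r ≤ c * ∑ i ∈ P, ∫⁻ s in A, ∫⁻ r in B, F i s r := by
  have hm1 : ∀ (i : ι) (s : ℝ), Measurable fun r : ℝ => F i s r := fun i s => (hm i).comp (measurable_const.prodMk measurable_id)
  have hm2 : ∀ i : ι, Measurable fun s : ℝ => ∫⁻ r in B, F i s r := fun i => (hm i).lintegral_prod_right'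
  rw [← lintegral_finsetSum _ fun i _ => hm2 i, ← lintegral_const_mul _ (Finset.measurable_fun_sum _ fun i _ => hm2 i)]
  refine lintegral_mono fun s => ?_
  dsimp only
  rw [← lintegral_finsetSum _ fun i _ => hm1 i s, ← lintegral_const_mul _ (Finset.measurable_fun_sum _ fun i _ => hm1 i s)]
  exact lintegral_mono fun r => h s r

theorem RN_mono {F : Fam} {B₀ s₀ l l' B B' X : ℝ} (hF : F.Ok B₀) (hl : 0 < l) (hll : l ≤ l') (hB : 1 ≤ B) (h : B ≤ B') (hX : 0 ≤ X) (S : Finset (ℤ × ℤ)) :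
    RN F s₀ l B X S ≤ ENNReal.ofReal (l' / l) * RN F s₀ l' B' X S := by
  have hl' : 0 < l' := hl.trans_le hll
  have h1 : Icc (X / B) (B * X) ⊆ Icc (X / B') (B' * X) :=
    Icc_subset_Icc (div_le_div_of_nonneg_left hX (by linarith) h) (mul_le_mul_of_nonneg_right h hX)
  have h2 : Icc (s₀ - l) (s₀ + l) ⊆ Icc (s₀ - l') (s₀ + l') := Icc_subset_Icc (by linarith) (by linarith)
  unfold RN
  rw [← mul_assoc, ← ENNReal.ofReal_mul (by positivity)]
  have e : l' / l * l'⁻¹ = l⁻¹ := by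
    field_simp
  rw [e]
  refine mul_le_mul_right ?_ _
  calc ∫⁻ s in Icc (s₀ - l) (s₀ + l), ∫⁻ r in Icc (X / B) (B * X), ENNReal.ofReal (mf F S r s)
      ≤ ∫⁻ s in Icc (s₀ - l) (s₀ + l), ∫⁻ r in Icc (X / B') (B' * X), ENNReal.ofReal (mf F S r s) :=
        lintegral_mono fun s => lintegral_mono_set h1
    _ ≤ _ := lintegral_mono_set h2

theorem RN_fib {ι : Type} [DecidableEq ι] {F : Fam} {B₀ : ℝ} (hF : F.Ok B₀) (s₀ l B X : ℝ) (S : Finset (ℤ × ℤ)) (g : ℤ × ℤ → ι) (P : Finset ι) (hP : ∀ k ∈ S, g k ∈ P) :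
    RN F s₀ l B X S ≤ ENNReal.ofReal ((P.card : ℝ) ^ 11) * ∑ i ∈ P, RN F s₀ l B X (S.filter (fun k => g k = i)) := by
  have key : ∀ s r : ℝ, ENNReal.ofReal (mf F S r s) ≤
      ENNReal.ofReal ((P.card : ℝ) ^ 11) * ∑ i ∈ P, ENNReal.ofReal (mf F (S.filter (fun k => g k = i)) r s) := by
    intro s r
    have h0 : ∀ i ∈ P, 0 ≤ mf F (S.filter (fun k => g k = i)) r s := fun i _ => Pool.Agent.Helper92.DT.m12_nonneg _ _
    have h1 : mf F S r s ≤ (P.card : ℝ) ^ 11 * ∑ i ∈ P, mf F (S.filter (fun k => g k = i)) r s := m12_fib58 S g P hP _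
    have h2 : (0 : ℝ) ≤ (P.card : ℝ) ^ 11 := pow_nonneg (Nat.cast_nonneg _) _
    rw [← ENNReal.ofReal_sum_of_nonneg h0, ← ENNReal.ofReal_mul h2]
    exact ENNReal.ofReal_le_ofReal h1
  have h3 := abs58 P (fun i s r => ENNReal.ofReal (mf F (S.filter (fun k => g k = i)) r s))
    (fun i => ENNReal.measurable_ofReal.comp (mf_cont hF _).measurable) (fun s r => ENNReal.ofReal (mf F S r s)) _ key
    (Icc (s₀ - l) (s₀ + l)) (Icc (X / B) (B * X))
  unfold RN
  rw [← Finset.mul_sum, mul_left_comm]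
  exact mul_le_mul_right h3 _

theorem RN_triv {F : Fam} {s₀ l B X : ℝ} (hl : 0 < l) (hB : 1 ≤ B) (hX : 0 ≤ X) (S : Finset (ℤ × ℤ)) :
    RN F s₀ l B X S ≤ ENNReal.ofReal (2 * B * X * (S.card : ℝ) ^ 12) := by
  have hc : (S.card : ℝ) ^ 11 ≤ (S.card : ℝ) ^ 12 := by
    rcases Nat.eq_zero_or_pos S.card with h | h
    · rw [h]; simp
    · exact pow_le_pow_right₀ (by exact_mod_cast h) (by norm_num)
  have h1 : ∀ s r : ℝ, ENNReal.ofReal (mf F S r s) ≤ ENNReal.ofReal ((S.card : ℝ) ^ 12) := fun s r =>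
    ENNReal.ofReal_le_ofReal ((Pool.Agent.Helper60.LT.m12_le_card S fun _ _ => (ee_norm _).le).trans hc)
  have h2 : ∀ s : ℝ, ∫⁻ r in Icc (X / B) (B * X), ENNReal.ofReal (mf F S r s) ≤ ENNReal.ofReal ((S.card : ℝ) ^ 12) * ENNReal.ofReal (B * X) := by
    intro s
    calc ∫⁻ r in Icc (X / B) (B * X), ENNReal.ofReal (mf F S r s) ≤ ∫⁻ _ in Icc (X / B) (B * X), ENNReal.ofReal ((S.card : ℝ) ^ 12) :=
          lintegral_mono fun r => h1 s r
      _ = ENNReal.ofReal ((S.card : ℝ) ^ 12) * ENNReal.ofReal (B * X - X / B) := by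
          rw [setLIntegral_const, Real.volume_Icc]
      _ ≤ _ := by
          refine mul_le_mul_right (ENNReal.ofReal_le_ofReal ?_) _
          have : 0 ≤ X / B := div_nonneg hX (by linarith)
          linarith
  unfold RN
  calc ENNReal.ofReal l⁻¹ * ∫⁻ s in Icc (s₀ - l) (s₀ + l), ∫⁻ r in Icc (X / B) (B * X), ENNReal.ofReal (mf F S r s)
      ≤ ENNReal.ofReal l⁻¹ * ∫⁻ _ in Icc (s₀ - l) (s₀ + l), ENNReal.ofReal ((S.card : ℝ) ^ 12) * ENNReal.ofReal (B * X) :=
        mul_le_mul_right (lintegral_mono fun s => h2 s) _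
    _ = ENNReal.ofReal l⁻¹ * (ENNReal.ofReal ((S.card : ℝ) ^ 12) * ENNReal.ofReal (B * X) * ENNReal.ofReal (2 * l)) := by
        rw [setLIntegral_const, Real.volume_Icc]
        congr 3
        ring_nf
    _ = ENNReal.ofReal (2 * B * X * (S.card : ℝ) ^ 12) := by
        rw [← ENNReal.ofReal_mul (by positivity), ← ENNReal.ofReal_mul (by positivity), ← ENNReal.ofReal_mul (by positivity)]
        congr 1
        field_simp

end Pool.Agent.Helper60.GM
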