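import Pool.Agent.Helper60.GM.Defs

/-!
# Project GM: the arcs whose centre has small `|J|`

The zeros of `J(s, ·)` are simple (`nd`), `J_t` is Lipschitz: `{|J(s, ·)| ≤ θ}` is contained in a bounded number of intervals of length `C θ`.
-/

open MeasureTheory Real Set Filter Topology

set_option autoImplicit false

namespace Pool.Agent.Helper60.GM

open Pool.Agent.Helper60.RT (ctr)

private theorem card58 {A : Finset ℕ} {D : ℝ} (hD : 0 ≤ D) (h : ∀ a ∈ A, ∀ b ∈ A, (a : ℝ) - b ≤ D) : (A.card : ℝ) ≤ D + 1 := by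
  rcases A.eq_empty_or_nonempty with hA | hA
  · rw [hA]
    simp only [Finset.card_empty, Nat.cast_zero]
    linarith
  · have h1 : A ⊆ Finset.Icc (A.min' hA) (A.max' hA) := fun x hx =>
      Finset.mem_Icc.2 ⟨A.min'_le x hx, A.le_max' x hx⟩
    have h2 := Finset.card_le_card h1
    rw [Nat.card_Icc] at h2
    have h3 := h _ (A.max'_mem hA) _ (A.min'_mem hA)
    have h4 : A.min' hA ≤ A.max' hA := A.min'_le _ (A.max'_mem hA)
    have h5 : (A.card : ℝ) ≤ ((A.max' hA + 1 - A.min' hA : ℕ) : ℝ) := by exact_mod_cast h2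
    rw [Nat.cast_sub (by omega)] at h5
    push_cast at h5
    linarith

/-- the distance of two points of a short interval where `|J| ≤ θ` -/
theorem J_sep {B₀ : ℝ} {F : Fam} (hF : F.Ok B₀) {s θ t t' : ℝ} (hs : s ∈ Icc (-1 : ℝ) 2) (ht : |t| ≤ 12) (ht' : |t'| ≤ 12) (hθ : 4 * B₀ * θ ≤ 1)
    (h1 : |F.J s t| ≤ θ) (h2 : |F.J s t'| ≤ θ) (h3 : 4 * B₀ ^ 2 * |t - t'| ≤ 1) : |t - t'| ≤ 4 * B₀ * θ := by
  have hB := hF.B1
  have hB0 : 0 < B₀ := by linarith
  wlog hlt : t < t' generalizing t t'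
  · rcases eq_or_lt_of_le (not_lt.1 hlt) with h | h
    · rw [← h, sub_self, abs_zero]
      have : 0 ≤ θ := (abs_nonneg _).trans h1
      positivity
    · rw [abs_sub_comm]
      exact this ht' ht h2 h1 (by rw [abs_sub_comm]; exact h3) h
  have hab : ∀ u ∈ Icc t t', |u| ≤ 12 := fun u hu => abs_le.2 ⟨(abs_le.1 ht).1.trans hu.1, hu.2.trans (abs_le.1 ht').2⟩
  obtain ⟨ξ, hξ, he⟩ := exists_hasDerivAt_eq_slope (F.J s) (F.Jt s) hlt
    (fun u hu => (hF.hJ s hs u (hab u hu)).continuousAt.continuousWithinAt)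
    (fun u hu => hF.hJ s hs u (hab u (Ioo_subset_Icc_self hu)))
  have hξ' : |ξ| ≤ 12 := hab ξ (Ioo_subset_Icc_self hξ)
  have hd : |t - t'| = t' - t := by rw [abs_sub_comm, abs_of_pos (by linarith)]
  rw [hd] at h3 ⊢
  -- the derivative at `t` is large
  have g1 := hF.nd s hs t ht
  have g2 := (hF.lipJ s hs s hs ξ t hξ' ht).2
  rw [sub_self, abs_zero, zero_add] at g2
  have g3 : |ξ - t| ≤ t' - t := by
    rw [abs_of_nonneg (by linarith [hξ.1])]
    linarith [hξ.2]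
  have g4 : |F.Jt s t| ≤ |F.Jt s ξ| + B₀ * (t' - t) := by
    have := abs_sub_abs_le_abs_sub (F.Jt s t) (F.Jt s ξ)
    rw [abs_sub_comm (F.Jt s t)] at this
    have := mul_le_mul_of_nonneg_left g3 hB0.le
    linarith
  have g5 : 1 ≤ 2 * B₀ * |F.Jt s ξ| := by
    have k1 : 1 ≤ B₀ * |F.J s t| + B₀ * |F.Jt s t| := by linarith
    have k2 : B₀ * |F.J s t| ≤ 1 / 4 := by nlinarith
    have k3 : B₀ * |F.Jt s t| ≤ B₀ * |F.Jt s ξ| + B₀ ^ 2 * (t' - t) := by
      have := mul_le_mul_of_nonneg_left g4 hB0.le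
      nlinarith
    nlinarith
  rw [eq_div_iff (by linarith)] at he
  have g6 : |F.J s t' - F.J s t| ≤ 2 * θ := by
    have := abs_sub (F.J s t') (F.J s t)
    linarith
  rw [← he, abs_mul, abs_of_pos (by linarith : (0 : ℝ) < t' - t)] at g6
  have g7 : (t' - t) * 1 ≤ (t' - t) * (2 * B₀ * |F.Jt s ξ|) := mul_le_mul_of_nonneg_left g5 (by linarith)
  have g8 : 2 * B₀ * (|F.Jt s ξ| * (t' - t)) ≤ 2 * B₀ * (2 * θ) := mul_le_mul_of_nonneg_left g6 (by positivity)
  nlinarith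

/-- the number of arcs whose centre has `|J| ≤ θ` -/
theorem countJ0 {B₀ : ℝ} (hB₀ : 1 ≤ B₀) : ∃ C : ℝ, 1 ≤ C ∧ ∀ (F : Fam), F.Ok B₀ → ∀ (s θ : ℝ) (N : ℕ), s ∈ Icc (-1 : ℝ) 2 → 0 ≤ θ → 1 ≤ N →
    (((Finset.range N).filter (fun r => |F.J s (ctr N r)| ≤ θ)).card : ℝ) ≤ C * (1 + θ * N) := by
  have hB0 : 0 < B₀ := by linarith
  refine ⟨(48 * B₀ ^ 2 + 1) * (4 * B₀), by nlinarith [sq_nonneg B₀], fun F hF s θ N hs hθ hN => ?_⟩
  have hN0 : (0 : ℝ) < N := by exact_mod_cast hN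
  set A := (Finset.range N).filter (fun r => |F.J s (ctr N r)| ≤ θ) with hA
  have hctr : ∀ r ∈ A, |ctr N r| ≤ 6 := by
    intro r hr
    have h1 : (r : ℝ) + 1 ≤ N := by
      have := Finset.mem_range.1 (Finset.mem_filter.1 hr).1
      exact_mod_cast this
    have h2 : ((r : ℝ) + 1 / 2) / N ≤ 1 := (div_le_one hN0).2 (by linarith)
    have h3 : 0 ≤ ((r : ℝ) + 1 / 2) / N := by positivity
    unfold ctr
    rw [mul_div_assoc, abs_le]
    constructor <;> linarith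
  rcases lt_or_ge 1 (4 * B₀ * θ) with hbig | hsmall
  · have h1 : (A.card : ℝ) ≤ N := by
      have := Finset.card_filter_le (Finset.range N) (fun r => |F.J s (ctr N r)| ≤ θ)
      rw [Finset.card_range] at this
      exact_mod_cast this
    have h2 : (N : ℝ) ≤ 4 * B₀ * θ * N := le_mul_of_one_le_left hN0.le hbig.le
    have h3 : 0 ≤ (48 * B₀ ^ 2) * (4 * B₀) * (1 + θ * N) := by positivity
    nlinarith
  · have hmap : ∀ r ∈ A, ⌊4 * B₀ ^ 2 * (ctr N r + 6)⌋₊ ∈ Finset.range (⌊48 * B₀ ^ 2⌋₊ + 1) := by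
      intro r hr
      rw [Finset.mem_range, Nat.lt_succ_iff]
      refine Nat.floor_le_floor ?_
      have := (abs_le.1 (hctr r hr)).2
      nlinarith [sq_nonneg B₀]
    have hfib : ∀ j ∈ Finset.range (⌊48 * B₀ ^ 2⌋₊ + 1), ((A.filter (fun r => ⌊4 * B₀ ^ 2 * (ctr N r + 6)⌋₊ = j)).card : ℝ) ≤ 4 * B₀ * (1 + θ * N) := by
      intro j _
      have h1 : ((A.filter (fun r => ⌊4 * B₀ ^ 2 * (ctr N r + 6)⌋₊ = j)).card : ℝ) ≤ 4 * B₀ * θ * N / 12 + 1 := by
        refine card58 (by positivity) fun a ha b hb => ?_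
        rw [Finset.mem_filter] at ha hb
        have ca := hctr a ha.1
        have cb := hctr b hb.1
        have h0 : ∀ r ∈ A, 0 ≤ 4 * B₀ ^ 2 * (ctr N r + 6) := fun r hr => by
          have := (abs_le.1 (hctr r hr)).1
          have : 0 ≤ ctr N r + 6 := by linarith
          positivity
        have h2 : 4 * B₀ ^ 2 * |ctr N a - ctr N b| ≤ 1 := by
          have a1 := Nat.floor_le (h0 a ha.1)
          have a2 := Nat.lt_floor_add_one (4 * B₀ ^ 2 * (ctr N a + 6))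
          have b1 := Nat.floor_le (h0 b hb.1)
          have b2 := Nat.lt_floor_add_one (4 * B₀ ^ 2 * (ctr N b + 6))
          rw [ha.2] at a1 a2
          rw [hb.2] at b1 b2
          have e : 4 * B₀ ^ 2 * |ctr N a - ctr N b| = |4 * B₀ ^ 2 * (ctr N a + 6) - 4 * B₀ ^ 2 * (ctr N b + 6)| := by
            rw [← mul_sub, abs_mul, abs_of_pos (by positivity : (0 : ℝ) < 4 * B₀ ^ 2)]
            congr 2
            ring
          rw [e, abs_le]
          constructor <;> linarith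
        have h3 := J_sep hF hs (by linarith) (by linarith) hsmall (Finset.mem_filter.1 ha.1).2 (Finset.mem_filter.1 hb.1).2 h2
        have h4 : ctr N a - ctr N b = 12 * ((a : ℝ) - b) / N := by
          unfold ctr
          field_simp
          ring
        have h5 : 12 * ((a : ℝ) - b) / N ≤ 4 * B₀ * θ := by
          rw [← h4]
          exact (le_abs_self _).trans h3
        rw [div_le_iff₀ hN0] at h5
        linarith
      refine h1.trans ?_
      have h6 : 0 ≤ B₀ * θ * N := by positivity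
      nlinarith
    have h7 : A.card = ∑ j ∈ Finset.range (⌊48 * B₀ ^ 2⌋₊ + 1), (A.filter (fun r => ⌊4 * B₀ ^ 2 * (ctr N r + 6)⌋₊ = j)).card :=
      Finset.card_eq_sum_card_fiberwise hmap
    rw [h7]
    push_cast
    refine (Finset.sum_le_sum hfib).trans ?_
    rw [Finset.sum_const, Finset.card_range, nsmul_eq_mul]
    push_cast
    have h8 : (⌊48 * B₀ ^ 2⌋₊ : ℝ) ≤ 48 * B₀ ^ 2 := Nat.floor_le (by positivity)
    have h9 : 0 ≤ 4 * B₀ * (1 + θ * N) := by positivity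
    calc ((⌊48 * B₀ ^ 2⌋₊ : ℝ) + 1) * (4 * B₀ * (1 + θ * N)) ≤ (48 * B₀ ^ 2 + 1) * (4 * B₀ * (1 + θ * N)) :=
          mul_le_mul_of_nonneg_right (by linarith) h9
      _ = _ := by ring

/-- the form with the clause `|ctr N r| ≤ 12` -/
theorem countJ {B₀ : ℝ} (hB₀ : 1 ≤ B₀) : ∃ C : ℝ, 1 ≤ C ∧ ∀ (F : Fam), F.Ok B₀ → ∀ (s θ : ℝ) (N : ℕ), s ∈ Icc (-1 : ℝ) 2 → 0 ≤ θ → 1 ≤ N →
    (((Finset.range N).filter (fun r => |ctr N r| ≤ 12 ∧ |F.J s (ctr N r)| ≤ θ)).card : ℝ) ≤ C * (1 + θ * N) := by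
  obtain ⟨C, hC, h⟩ := countJ0 hB₀
  refine ⟨C, hC, fun F hF s θ N hs hθ hN => le_trans ?_ (h F hF s θ N hs hθ hN)⟩
  exact_mod_cast Finset.card_le_card fun r hr => by
    rw [Finset.mem_filter] at hr ⊢
    exact ⟨hr.1, hr.2.2⟩

end Pool.Agent.Helper60.GM
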